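import Pool.Agent.Helper2.SV.GoalsP
import Pool.Agent.Helper2.SV.GoalsC

/-!
# Packet SV-C6: the case of an empty `V0`
-/

set_option autoImplicit false

namespace Pool.Agent.Helper58.SV

open _root_.Pool.Agent.Helper2.SV

variable {V : Type}

/-- the first clique -/
def K1 (G : SimpleGraph V) (u : V) (d : Fin 5 → V) : Set V :=
  {x | x = d 2 ∨ (G.Adj u x ∧ (∀ j, x ≠ d j) ∧ ¬ G.Adj x (d 0) ∧ G.Adj x (d 1) ∧ G.Adj x (d 2) ∧
    G.Adj x (d 3) ∧ ¬ G.Adj x (d 4)) ∨ x ∈ V2 G u d 1 ∨ x ∈ V2 G u d 2}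

/-- the second clique -/
def K2 (G : SimpleGraph V) (u : V) (d : Fin 5 → V) : Set V :=
  {x | x = d 3 ∨ (G.Adj u x ∧ (∀ j, x ≠ d j) ∧ ¬ G.Adj x (d 0) ∧ ¬ G.Adj x (d 1) ∧ G.Adj x (d 2) ∧
    G.Adj x (d 3) ∧ G.Adj x (d 4)) ∨ x ∈ V2 G u d 3}

/-- packet SV-C6 -/
theorem goalC6 (hCOB : G_COB) (hAJ : G_AJ) (hCI : G_CI) : G_C6 := by
  intro V _ G w u d hcf hM hW hF hV0
  obtain ⟨hAJ1, hAJ2⟩ := hAJ V G u d hcf hW hF
  have hn0 : ∀ x, x ∉ V0 G u d := by intro x; rw [hV0]; exact Set.notMem_empty x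
  obtain ⟨c', hc', hcn'⟩ : ∃ c' : Fin 5 → V, (∀ i, c' i ∈ V2 G u d i) ∧
      ∀ i, ¬ G.Adj (c' i) (c' (i + 2)) := by
    rcases hM.odd u with ⟨a, b, c, ha, hb, hc, hab, hac, hbc, h1, h2, h3⟩ | ⟨c, hc, hinj, hcn, -⟩
    · exact (hAJ2 a b c ha hb hc (hn0 a) (hn0 b) (hn0 c) hab hac hbc h1 h2 h3).elim
    · exact hAJ1 c hc (fun i => hn0 _) hinj hcn
  obtain ⟨hCI1, hCI2⟩ := hCI V G u d hcf hW hF c' hc' hcn'
  -- claw in the form: v ~ a, b, c, a not b, a not c, so b ~ c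
  have claw : ∀ v a b c, G.Adj v a → G.Adj v b → G.Adj v c → a ≠ b → a ≠ c → b ≠ c →
      ¬ G.Adj a b → ¬ G.Adj a c → G.Adj b c := by
    intro v a b c h1 h2 h3 h4 h5 h6 h7 h8
    rcases hcf v a b c h1 h2 h3 h4 h5 h6 with h | h | h
    · exact absurd h h7
    · exact absurd h h8
    · exact h
  -- rim facts
  have r01 : G.Adj (d 0) (d 1) := hW.rim 0
  have r12 : G.Adj (d 1) (d 2) := hW.rim 1
  have r23 : G.Adj (d 2) (d 3) := hW.rim 2
  have r34 : G.Adj (d 3) (d 4) := hW.rim 3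
  have r40 : G.Adj (d 4) (d 0) := hW.rim 4
  have n02 : ¬ G.Adj (d 0) (d 2) := hW.non 0
  have n13 : ¬ G.Adj (d 1) (d 3) := hW.non 1
  have n24 : ¬ G.Adj (d 2) (d 4) := hW.non 2
  have n30 : ¬ G.Adj (d 3) (d 0) := hW.non 3
  have n41 : ¬ G.Adj (d 4) (d 1) := hW.non 4
  -- members of V2
  have hV2 : ∀ i v, v ∈ V2 G u d i → v ∈ Mn G u ∧ (∀ j, v ≠ d j) ∧
      ∀ j, G.Adj v (d j) ↔ (j = i ∨ j = i + 1) := by
    intro i v hv
    exact ⟨hv.1, fun j hj => hv.1.2 (hj ▸ hW.spoke j), hv.2⟩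
  have hC1 : Clq G (K1 G u d) := by
    intro x hx y hy hxy
    have key2 : ∀ x y, x = d 2 → (G.Adj u y ∧ (∀ j, y ≠ d j) ∧ ¬ G.Adj y (d 0) ∧ G.Adj y (d 1) ∧
        G.Adj y (d 2) ∧ G.Adj y (d 3) ∧ ¬ G.Adj y (d 4)) ∨ y ∈ V2 G u d 1 ∨ y ∈ V2 G u d 2 →
        G.Adj x y := by
      rintro x y rfl (h | h | h)
      · exact h.2.2.2.2.1.symm
      · exact (((hV2 1 y h).2.2 2).2 (by decide)).symm
      · exact (((hV2 2 y h).2.2 2).2 (by decide)).symm
    have keyU : ∀ x y, (G.Adj u x ∧ (∀ j, x ≠ d j) ∧ ¬ G.Adj x (d 0) ∧ G.Adj x (d 1) ∧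
        G.Adj x (d 2) ∧ G.Adj x (d 3) ∧ ¬ G.Adj x (d 4)) → y ∈ V2 G u d 1 ∨ y ∈ V2 G u d 2 →
        G.Adj x y := by
      rintro x y hx (h | h)
      · obtain ⟨hm, hne, hr⟩ := hV2 1 y h
        have hxy : x ≠ y := fun e => hm.2 (e ▸ hx.1)
        refine claw (d 1) (d 0) x y r01.symm hx.2.2.2.1.symm ((hr 1).2 (by decide)).symm
          (Ne.symm (hx.2.1 0)) (Ne.symm (hne 0)) hxy (fun e => hx.2.2.1 e.symm) ?_
        intro e
        exact absurd ((hr 0).1 e.symm) (by decide)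
      · obtain ⟨hm, hne, hr⟩ := hV2 2 y h
        have hxy : x ≠ y := fun e => hm.2 (e ▸ hx.1)
        refine claw (d 3) (d 4) x y r34 hx.2.2.2.2.2.1.symm ((hr 3).2 (by decide)).symm
          (Ne.symm (hx.2.1 4)) (Ne.symm (hne 4)) hxy (fun e => hx.2.2.2.2.2.2 e.symm) ?_
        intro e
        exact absurd ((hr 4).1 e.symm) (by decide)
    have hcommon : ∀ v, v ∈ V2 G u d 1 ∨ v ∈ V2 G u d 2 → v ∈ Mn G u ∧ G.Adj v (d 2) := by
      rintro v (h | h)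
      · exact ⟨h.1, ((hV2 1 v h).2.2 2).2 (by decide)⟩
      · exact ⟨h.1, ((hV2 2 v h).2.2 2).2 (by decide)⟩
    rcases hx with hx | hx | hx <;> rcases hy with hy | hy | hy
    · exact absurd (hx.trans hy.symm) hxy
    · exact key2 x y hx (Or.inl hy)
    · exact key2 x y hx (Or.inr hy)
    · exact (key2 y x hy (Or.inl hx)).symm
    · exact hF.both x y 0 hx.1 hy.1 hxy (hx.2.1 0) (hy.2.1 0) hx.2.2.1 hy.2.2.1
    · exact keyU x y hx hy
    · exact (key2 y x hy (Or.inr hx)).symm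
    · exact (keyU y x hy hx).symm
    · exact hF.common x y 2 (hcommon x hx).1 (hcommon y hy).1 hxy (hcommon x hx).2
        (hcommon y hy).2
  have hC2 : Clq G (K2 G u d) := by
    intro x hx y hy hxy
    have key2 : ∀ x y, x = d 3 → (G.Adj u y ∧ (∀ j, y ≠ d j) ∧ ¬ G.Adj y (d 0) ∧
        ¬ G.Adj y (d 1) ∧ G.Adj y (d 2) ∧ G.Adj y (d 3) ∧ G.Adj y (d 4)) ∨ y ∈ V2 G u d 3 →
        G.Adj x y := by
      rintro x y rfl (h | h)
      · exact h.2.2.2.2.2.1.symm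
      · exact (((hV2 3 y h).2.2 3).2 (by decide)).symm
    have keyU : ∀ x y, (G.Adj u x ∧ (∀ j, x ≠ d j) ∧ ¬ G.Adj x (d 0) ∧ ¬ G.Adj x (d 1) ∧
        G.Adj x (d 2) ∧ G.Adj x (d 3) ∧ G.Adj x (d 4)) → y ∈ V2 G u d 3 →
        G.Adj x y := by
      intro x y hx h
      obtain ⟨hm, hne, hr⟩ := hV2 3 y h
      have hxy : x ≠ y := fun e => hm.2 (e ▸ hx.1)
      refine claw (d 4) (d 0) x y r40 hx.2.2.2.2.2.2.symm ((hr 4).2 (by decide)).symm
        (Ne.symm (hx.2.1 0)) (Ne.symm (hne 0)) hxy (fun e => hx.2.2.1 e.symm) ?_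
      intro e
      exact absurd ((hr 0).1 e.symm) (by decide)
    rcases hx with hx | hx | hx <;> rcases hy with hy | hy | hy
    · exact absurd (hx.trans hy.symm) hxy
    · exact key2 x y hx (Or.inl hy)
    · exact key2 x y hx (Or.inr hy)
    · exact (key2 y x hy (Or.inl hx)).symm
    · exact hF.both x y 0 hx.1 hy.1 hxy (hx.2.1 0) (hy.2.1 0) hx.2.2.1 hy.2.2.1
    · exact keyU x y hx hy
    · exact (key2 y x hy (Or.inr hx)).symm
    · exact (keyU y x hy hx).symm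
    · exact hF.common x y 3 hx.1 hy.1 hxy (((hV2 3 x hx).2.2 3).2 (by decide))
        (((hV2 3 y hy).2.2 3).2 (by decide))
  apply hM.nperf (d 0)
  refine (hCOB V G (K1 G u d) (K2 G u d) hC1 hC2).mono ?_
  intro x hx
  obtain ⟨hx0, hxn⟩ := hx
  have hxu : x ≠ u := fun e => hxn (e ▸ (hW.spoke 0).symm)
  by_cases hrim : ∃ j, x = d j
  · obtain ⟨j, rfl⟩ := hrim
    fin_cases j
    · exact absurd rfl hx0
    · exact absurd r01 hxn
    · exact Or.inl (Or.inl rfl)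
    · exact Or.inr (Or.inl rfl)
    · exact absurd r40.symm hxn
  have hrim' : ∀ j, x ≠ d j := fun j hj => hrim ⟨j, hj⟩
  have hx0' : ¬ G.Adj x (d 0) := fun h => hxn h.symm
  by_cases hux : G.Adj u x
  · rcases hCI2 x hux hrim' with h | ⟨j, hj⟩
    · exact absurd (h 0) hx0'
    · have h0 := (hj 0).not.1 hx0'
      have hj12 : j = 1 ∨ j = 2 := by
        revert h0
        fin_cases j <;> decide
      rcases hj12 with rfl | rfl
      · left; right; left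
        refine ⟨hux, hrim', hx0', (hj 1).2 (by decide), (hj 2).2 (by decide), (hj 3).2 (by decide),
          fun h => absurd ((hj 4).1 h) (by decide)⟩
      · right; right; left
        refine ⟨hux, hrim', hx0', fun h => absurd ((hj 1).1 h) (by decide), (hj 2).2 (by decide),
          (hj 3).2 (by decide), (hj 4).2 (by decide)⟩
  · have hxM : x ∈ Mn G u := ⟨hxu, hux⟩
    rcases hF.types x hxM with h | ⟨i, hi⟩ | h
    · exact absurd h (hn0 x)
    · have h0 := (hi.2 0).not.1 hx0'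
      have hi123 : i = 1 ∨ i = 2 ∨ i = 3 := by
        revert h0
        fin_cases i <;> decide
      rcases hi123 with rfl | rfl | rfl
      · exact Or.inl (Or.inr (Or.inr (Or.inl hi)))
      · exact Or.inl (Or.inr (Or.inr (Or.inr hi)))
      · exact Or.inr (Or.inr (Or.inr hi))
    · exact absurd h (hCI1 x hxM)

end Pool.Agent.Helper58.SV
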